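import Pool.Agent.N437.LR.Stm

set_option autoImplicit false
open scoped Pointwise
open Pool.Agent.N437.LR

namespace Pool.Agent.N112.LR

variable {n r : ℕ}

lemma red_add (p : ℕ) (x y : Fin r → ℤ) : red p (x + y) = red p x + red p y := by
  funext j; simp [red]

lemma red_sub (p : ℕ) (x y : Fin r → ℤ) : red p (x - y) = red p x - red p y := by
  funext j; simp [red]

lemma red_zero (p : ℕ) : red p (0 : Fin r → ℤ) = 0 := by
  funext j; simp [red]

lemma red_nsmul (p k : ℕ) (x : Fin r → ℤ) : red p (k • x) = (k : ZMod p) • red p x := by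
  funext j; simp [red]

lemma red_eq_zero (p : ℕ) (x : Fin r → ℤ) (h : red p x = 0) : ∃ w : Fin r → ℤ, x = (p : ℤ) • w := by
  have h1 : ∀ j, (p : ℤ) ∣ x j := by
    intro j
    have := congrFun h j
    simp only [red, Pi.zero_apply] at this
    exact (ZMod.intCast_zmod_eq_zero_iff_dvd _ _).1 this
  choose w hw using h1
  exact ⟨w, funext fun j => by simpa using hw j⟩

def KK (p : ℕ) [Fact p.Prime] (L : AddSubgroup (EE n)) (V : (Fin r → ℤ) →+ EE n)
    (H : Submodule (ZMod p) (Fin r → ZMod p)) : Submodule (ZMod p) (Fin r → ZMod p) where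
  carrier := {h | h ∈ H ∧ ∃ z : Fin r → ℤ, red p z = h ∧ ∃ y ∈ L, V z = (p : ℤ) • y}
  add_mem' := by
    rintro a b ⟨ha, z, hz, y, hy, hv⟩ ⟨hb, z', hz', y', hy', hv'⟩
    refine ⟨H.add_mem ha hb, z + z', by rw [red_add, hz, hz'], y + y', L.add_mem hy hy', ?_⟩
    rw [map_add, hv, hv', smul_add]
  zero_mem' := ⟨H.zero_mem, 0, red_zero p, 0, L.zero_mem, by simp⟩
  smul_mem' := by
    rintro c a ⟨ha, z, hz, y, hy, hv⟩
    refine ⟨H.smul_mem c ha, c.val • z, ?_, c.val • y, L.nsmul_mem hy _, ?_⟩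
    · rw [red_nsmul, hz, ZMod.natCast_zmod_val]
    · rw [map_nsmul, hv, smul_comm]

lemma mem_KK {p : ℕ} [Fact p.Prime] {L : AddSubgroup (EE n)} {V : (Fin r → ℤ) →+ EE n}
    {H : Submodule (ZMod p) (Fin r → ZMod p)} {h : Fin r → ZMod p} :
    h ∈ KK p L V H ↔ h ∈ H ∧ ∃ z : Fin r → ℤ, red p z = h ∧ ∃ y ∈ L, V z = (p : ℤ) • y := Iff.rfl

/-- small vectors of `p L` vanish -/
lemma small_zero {p : ℕ} {L : AddSubgroup (EE n)} (hsep : Sep L) {x y : EE n} (hy : y ∈ L)
    (hx : x = (p : ℤ) • y) (hn : ‖x‖ < p) : x = 0 := by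
  by_contra h0
  have hy0 : y ≠ 0 := by
    rintro rfl
    exact h0 (by simpa using hx)
  have h1 := hsep y hy hy0
  have h2 : ‖x‖ = p * ‖y‖ := by
    rw [hx, ← Int.cast_smul_eq_zsmul ℝ, norm_smul]
    simp
  have hp : (0 : ℝ) ≤ p := Nat.cast_nonneg _
  nlinarith

lemma AR_fin (T0 T : ℝ) (V : (Fin r → ℤ) →+ EE n) (R : ℝ) : (AR T0 T V R).Finite := by
  refine (Set.finite_Icc (fun _ : Fin r => -⌈T0 * R⌉) (fun _ => ⌈T0 * R⌉)).subset ?_
  rintro z ⟨hz, -⟩
  refine ⟨fun j => ?_, fun j => ?_⟩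
  · have h1 := (abs_le.1 (hz j)).1
    have h2 : (-(⌈T0 * R⌉ : ℤ) : ℝ) ≤ z j := by
      have := Int.le_ceil (T0 * R)
      linarith
    exact_mod_cast h2
  · have h1 := (abs_le.1 (hz j)).2
    have h2 : (z j : ℝ) ≤ (⌈T0 * R⌉ : ℤ) := h1.trans (Int.le_ceil _)
    exact_mod_cast h2

lemma image_card {p T0 T R : ℕ} [Fact p.Prime] {L : AddSubgroup (EE n)} (hsep : Sep L)
    {V : (Fin r → ℤ) →+ EE n} (hV : ∀ z, V z ∈ L) (H : Submodule (ZMod p) (Fin r → ZMod p))
    (h8 : 8 * T * R < p) :
    (V '' MH p T0 T R V H).ncard ≤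
      p ^ (Module.finrank (ZMod p) H - Module.finrank (ZMod p) (KK p L V H)) := by
  classical
  set K := KK p L V H with hK
  have hKH : K ≤ H := fun h hh => hh.1
  let Q := (↥H) ⧸ (K.submoduleOf H)
  have hfin : Finite Q := inferInstance
  have hQ : Nat.card Q = p ^ (Module.finrank (ZMod p) H - Module.finrank (ZMod p) K) := by
    have h1 : Module.finrank (ZMod p) Q =
        Module.finrank (ZMod p) H - Module.finrank (ZMod p) K := by
      have h2 : Module.finrank (ZMod p) Q + Module.finrank (ZMod p) (K.submoduleOf H) =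
          Module.finrank (ZMod p) H := Submodule.finrank_quotient_add_finrank (K.submoduleOf H)
      have h3 : Module.finrank (ZMod p) (K.submoduleOf H) = Module.finrank (ZMod p) K :=
        (Submodule.submoduleOfEquivOfLe hKH).finrank_eq
      omega
    have h4 := Module.natCard_eq_pow_finrank (K := ZMod p) (V := Q)
    rw [h4, h1, Nat.card_zmod]
  rw [← hQ]
  have hch : ∀ v : V '' MH p T0 T R V H, ∃ z, z ∈ MH p T0 T R V H ∧ V z = v := fun v => v.2
  choose z hz hzv using hch
  let g : V '' MH p T0 T R V H → Q := fun v => Submodule.Quotient.mk ⟨red p (z v), (hz v).2⟩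
  have hg : Function.Injective g := by
    intro v v' hvv
    have h1 : (⟨red p (z v), (hz v).2⟩ : H) - ⟨red p (z v'), (hz v').2⟩ ∈ K.submoduleOf H :=
      (Submodule.Quotient.eq _).1 hvv
    have h2 : red p (z v) - red p (z v') ∈ K := by
      simpa [Submodule.submoduleOf] using h1
    obtain ⟨-, w, hw, y, hy, hVw⟩ := mem_KK.1 h2
    have h3 : red p (z v - z v' - w) = 0 := by
      rw [red_sub, red_sub, hw, sub_self]
    obtain ⟨u, hu⟩ := red_eq_zero p _ h3
    have h4 : V (z v - z v') = (p : ℤ) • (y + V u) := by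
      have : z v - z v' = w + (p : ℤ) • u := by rw [← hu]; abel
      rw [this, map_add, hVw, map_zsmul, smul_add]
    have h5 : ‖V (z v - z v')‖ < p := by
      have a1 := (hz v).1.2
      have a2 := (hz v').1.2
      rw [map_sub]
      have a3 : ((8 * T * R : ℕ) : ℝ) < p := by exact_mod_cast h8
      push_cast at a3
      calc ‖V (z v) - V (z v')‖ ≤ ‖V (z v)‖ + ‖V (z v')‖ := norm_sub_le _ _
        _ ≤ 8 * T * R := by linarith
        _ < p := a3
    have h6 := small_zero hsep (L.add_mem hy (hV u)) h4 h5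
    rw [map_sub, sub_eq_zero, hzv, hzv] at h6
    exact Subtype.ext h6
  have : Nat.card (V '' MH p T0 T R V H) ≤ Nat.card Q := Nat.card_le_card_of_injective g hg
  rwa [Nat.card_coe_set_eq] at this

/-- the index argument -/
lemma index_arg {p T R m q : ℕ} [Fact p.Prime] {C3 : ℝ} {L : AddSubgroup (EE n)}
    {V : (Fin r → ℤ) →+ EE n} (hV : ∀ z, V z ∈ L)
    (hidx : IdxP L C3 ((8 * T * R : ℕ) : ℝ)) 
    (hp6 : (C3 * ((8 * T * R : ℕ) : ℝ)) ^ 6 < p)
    (HJ : Submodule (ZMod p) (Fin r → ZMod p)) (hm : Module.finrank (ZMod p) HJ = m)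
    (x : Fin q → EE n) (w : Fin q → Fin r → ℤ) (hx : ∀ i, x i = V (w i))
    (hw : ∀ i, red p (w i) ∈ HJ) (hli : LinearIndependent ℝ x)
    (hnorm : ∀ i, ‖x i‖ ≤ ((8 * T * R : ℕ) : ℝ)) (hq : 2 * q ≤ n) (hq1 : 1 ≤ q) : q < 2 * m := by
  classical
  have hp : p.Prime := Fact.out
  have hp0 : (0 : ℝ) < p := by exact_mod_cast hp.pos
  let Φ : (Fin q → ZMod p) →ₗ[ZMod p] HJ :=
    (Fintype.linearCombination (ZMod p) (fun i => (⟨red p (w i), hw i⟩ : HJ)))
  have hΦ : ∀ c : Fin q → ZMod p, ((Φ c : HJ) : Fin r → ZMod p) = ∑ i, c i • red p (w i) := by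
    intro c
    simp [Φ, Fintype.linearCombination_apply]
  have hker : q ≤ Module.finrank (ZMod p) (LinearMap.ker Φ) + m := by
    have h1 := LinearMap.finrank_range_add_finrank_ker Φ
    have h2 : Module.finrank (ZMod p) (LinearMap.range Φ) ≤ Module.finrank (ZMod p) HJ :=
      Submodule.finrank_le _
    simp only [Module.finrank_fintype_fun_eq_card, Fintype.card_fin] at h1
    omega
  let S : Finset (Fin q → ℝ) :=
    (Finset.univ : Finset (LinearMap.ker Φ)).image fun c => fun i => ((c.1 i).val : ℝ) / p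
  have hScard : S.card = p ^ Module.finrank (ZMod p) (LinearMap.ker Φ) := by
    have h1 : S.card = (Finset.univ : Finset (LinearMap.ker Φ)).card := by
      refine Finset.card_image_of_injective _ ?_
      intro c c' hcc
      apply Subtype.ext
      funext i
      have := congrFun hcc i
      simp only at this
      rw [div_left_inj' hp0.ne'] at this
      exact ZMod.val_injective p (by exact_mod_cast this)
    rw [h1, Finset.card_univ, ← Nat.card_eq_fintype_card,
      Module.natCard_eq_pow_finrank (K := ZMod p), Nat.card_zmod]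
  have hS : ∀ a ∈ S, (∀ i, 0 ≤ a i ∧ a i < 1) ∧ ∑ i, a i • x i ∈ L := by
    intro a ha
    obtain ⟨c, -, rfl⟩ := Finset.mem_image.1 ha
    refine ⟨fun i => ⟨by positivity, ?_⟩, ?_⟩
    · rw [div_lt_one hp0]
      exact_mod_cast ZMod.val_lt (c.1 i)
    · have h1 : red p (∑ i, (c.1 i).val • w i) = 0 := by
        have h2 : ∑ i, c.1 i • red p (w i) = 0 := by
          rw [← hΦ]
          have := LinearMap.mem_ker.1 c.2
          rw [this]; rfl
        rw [← h2]
        funext j
        simp only [red, Finset.sum_apply, Pi.smul_apply, smul_eq_mul, Int.cast_sum]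
        refine Finset.sum_congr rfl fun i _ => ?_
        simp
      obtain ⟨u, hu⟩ := red_eq_zero p _ h1
      have h3 : ∑ i, ((c.1 i).val : ℝ) • x i = (p : ℝ) • V u := by
        have h4 : V (∑ i, (c.1 i).val • w i) = V ((p : ℤ) • u) := by rw [hu]
        rw [map_sum, map_zsmul] at h4
        rw [← Int.cast_smul_eq_zsmul ℝ] at h4
        simp only [map_nsmul, ← hx] at h4
        rw [Int.cast_natCast] at h4
        rw [← h4]
        refine Finset.sum_congr rfl fun i _ => ?_
        rw [Nat.cast_smul_eq_nsmul]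
      have h5 : ∑ i, (((c.1 i).val : ℝ) / p) • x i = V u := by
        have : ∑ i, (((c.1 i).val : ℝ) / p) • x i = (p : ℝ)⁻¹ • ∑ i, ((c.1 i).val : ℝ) • x i := by
          rw [Finset.smul_sum]
          refine Finset.sum_congr rfl fun i _ => ?_
          rw [smul_smul]; congr 1; field_simp
        rw [this, h3, smul_smul, inv_mul_cancel₀ hp0.ne', one_smul]
      rw [h5]
      exact hV u
  have hmain := hidx q x hq hli (fun i => by rw [hx]; exact hV _) hnorm S hS
  rw [hScard] at hmain
  by_contra hcon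
  push Not at hcon
  set X := C3 * ((8 * T * R : ℕ) : ℝ) with hX
  set k := Module.finrank (ZMod p) (LinearMap.ker Φ) with hk
  have h1 : ((p : ℝ) ^ k) ^ 2 ≤ (X ^ 6) ^ q := by
    have h2 : ((p ^ k : ℕ) : ℝ) ^ 2 ≤ (X ^ (3 * q)) ^ 2 := by
      have : (0 : ℝ) ≤ ((p ^ k : ℕ) : ℝ) := Nat.cast_nonneg _
      exact pow_le_pow_left₀ this hmain 2
    push_cast at h2
    calc ((p : ℝ) ^ k) ^ 2 ≤ (X ^ (3 * q)) ^ 2 := h2
      _ = (X ^ 6) ^ q := by rw [← pow_mul, ← pow_mul]; congr 1; ring
  have h3 : (X ^ 6) ^ q < (p : ℝ) ^ q :=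
    pow_lt_pow_left₀ hp6 (by positivity) (by omega)
  have h4 : ((p : ℝ) ^ k) ^ 2 < (p : ℝ) ^ q := h1.trans_lt h3
  rw [← pow_mul] at h4
  have h5 : k * 2 < q := by
    by_contra h6
    push Not at h6
    have : (p : ℝ) ^ q ≤ (p : ℝ) ^ (k * 2) :=
      pow_le_pow_right₀ (by exact_mod_cast hp.one_lt.le) h6
    linarith
  omega

theorem st3 (hSl : S_SLICE) : S_ST3 := by
  classical
  intro n r p T T0 R C3 hpF L V H hT hT0 hR hC3 hsep hV hidx h8 h8' hp6
  have hp : p.Prime := Fact.out
  set K := KK p L V H with hKdef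
  have hKH : K ≤ H := fun h hh => hh.1
  have hkh : Module.finrank (ZMod p) K ≤ Module.finrank (ZMod p) H := Submodule.finrank_mono hKH
  have himg := image_card (T0 := T0) (T := T) (R := R) hsep hV H h8'
  rw [← hKdef] at himg
  -- choice of m
  obtain ⟨m, hmH, h4m, hor, hmK⟩ : ∃ m : ℕ, m ≤ Module.finrank (ZMod p) H ∧ 4 * m ≤ n ∧
      (n < 4 * (m + 1) ∨ (V '' MH p T0 T R V H).ncard ≤ p ^ m) ∧
      m + Module.finrank (ZMod p) K ≤ Module.finrank (ZMod p) H := by
    by_cases hc : 4 * (Module.finrank (ZMod p) H - Module.finrank (ZMod p) K) ≤ n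
    · exact ⟨Module.finrank (ZMod p) H - Module.finrank (ZMod p) K, by omega, hc, Or.inr himg,
        by omega⟩
    · exact ⟨n / 4, by omega, by omega, Or.inl (by omega), by omega⟩
  refine ⟨m, hmH, h4m, hor, ?_⟩
  obtain ⟨J, hJ, hJK, hJm⟩ := hSl (ZMod p) r m H K hKH hmK
  set HJ : Submodule (ZMod p) (Fin r → ZMod p) := H ⊓ ⨅ j ∈ J,
        LinearMap.ker (LinearMap.proj j : (Fin r → ZMod p) →ₗ[ZMod p] ZMod p) with hHJ
  have hMfin : (MH p T0 T R V H).Finite := (AR_fin (T0 : ℝ) T V (2 * R)).subset fun z hz => hz.1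
  set M : Finset (Fin r → ℤ) := hMfin.toFinset with hM
  have memM : ∀ z, z ∈ M ↔ z ∈ MH p T0 T R V H := fun z => by rw [hM, Set.Finite.mem_toFinset]
  have hMcard : (MH p T0 T R V H).ncard = M.card := by
    rw [hM, Set.ncard_eq_toFinset_card _ hMfin]
  let f : (Fin r → ℤ) → (Fin r → ℤ) := fun z j => if j ∈ J then z j else 0
  let t : Finset (Fin r → ℤ) := Fintype.piFinset fun j =>
    if j ∈ J then Finset.Icc (-(2 * T0 * R : ℤ)) (2 * T0 * R) else {0}
  have hbd : ∀ z ∈ M, ∀ j, |z j| ≤ 2 * T0 * R := by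
    intro z hz j
    have h1 := ((memM z).1 hz).1.1 j
    have h2 : ((|z j| : ℤ) : ℝ) ≤ ((2 * T0 * R : ℤ) : ℝ) := by
      push_cast
      linarith
    exact_mod_cast h2
  have hft : ∀ z ∈ M, f z ∈ t := by
    intro z hz
    refine Fintype.mem_piFinset.2 fun j => ?_
    by_cases hj : j ∈ J
    · simp only [f, hj, if_true]
      exact Finset.mem_Icc.2 (abs_le.1 (hbd z hz j))
    · simp [f, hj]
  have htcard : t.card = (4 * T0 * R + 1) ^ (Module.finrank (ZMod p) H - m) := by
    rw [Fintype.card_piFinset]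
    have h1 : ∀ j : Fin r, (if j ∈ J then Finset.Icc (-(2 * T0 * R : ℤ)) (2 * T0 * R)
        else {0}).card = if j ∈ J then 4 * T0 * R + 1 else 1 := by
      intro j
      split_ifs
      · rw [Int.card_Icc]
        have : (2 * T0 * R + 1 - -(2 * T0 * R) : ℤ) = ((4 * T0 * R + 1 : ℕ) : ℤ) := by
          push_cast; ring
        rw [this, Int.toNat_natCast]
      · simp
    rw [Finset.prod_congr rfl fun j _ => h1 j, Finset.prod_ite_mem, Finset.univ_inter,
      Finset.prod_const]
    congr 1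
    omega
  have hzM : (0 : Fin r → ℤ) ∈ M := by
    rw [memM]
    refine ⟨⟨fun j => ?_, ?_⟩, ?_⟩
    · simp only [Pi.zero_apply, Int.cast_zero, abs_zero]; positivity
    · rw [map_zero, norm_zero]; positivity
    · rw [red_zero]; exact H.zero_mem
  obtain ⟨b, hbt, hbmax⟩ := Finset.exists_max_image t (fun b => (M.filter fun z => f z = b).card)
    ⟨_, hft 0 hzM⟩
  set S0 := M.filter fun z => f z = b with hS0
  have hMS : M.card ≤ S0.card * t.card :=
    Finset.card_le_mul_card_image_of_maps_to hft _ fun c hc => hbmax c hc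
  have hS0ne : S0.Nonempty := by
    rw [Finset.nonempty_iff_ne_empty]
    intro h0
    rw [h0, Finset.card_empty, zero_mul] at hMS
    exact (Finset.card_pos.2 ⟨0, hzM⟩).ne' (by omega)
  obtain ⟨z0, hz0⟩ := hS0ne
  have hz0M : z0 ∈ M := (Finset.mem_filter.1 hz0).1
  -- differences of elements of S0
  have hdiffJ : ∀ z ∈ S0, ∀ z' ∈ S0, red p (z - z') ∈ HJ := by
    intro z hz z' hz'
    have hzM' := (Finset.mem_filter.1 hz).1
    have hzM'' := (Finset.mem_filter.1 hz').1
    have e1 := (Finset.mem_filter.1 hz).2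
    have e2 := (Finset.mem_filter.1 hz').2
    refine Submodule.mem_inf.2 ⟨?_, ?_⟩
    · rw [red_sub]
      exact H.sub_mem ((memM z).1 hzM').2 ((memM z').1 hzM'').2
    · simp only [Submodule.mem_iInf, LinearMap.mem_ker, LinearMap.proj_apply]
      intro j hj
      have h1 : f z j = f z' j := by rw [e1, e2]
      simp only [f, hj, if_true] at h1
      simp [red, h1]
  have hnormd : ∀ z ∈ S0, ∀ z' ∈ S0, ‖V z - V z'‖ ≤ ((8 * T * R : ℕ) : ℝ) := by
    intro z hz z' hz'
    have a1 := ((memM z).1 (Finset.mem_filter.1 hz).1).1.2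
    have a2 := ((memM z').1 (Finset.mem_filter.1 hz').1).1.2
    push_cast
    calc ‖V z - V z'‖ ≤ ‖V z‖ + ‖V z'‖ := norm_sub_le _ _
      _ ≤ 8 * T * R := by linarith
  set B : Finset (EE n) := S0.image fun z => V z - V z0 with hB
  have hredz : ∀ z ∈ S0, ∀ z' ∈ S0, red p (z - z') = 0 → z = z' := by
    intro z hz z' hz' h0
    obtain ⟨w, hw⟩ := red_eq_zero p _ h0
    funext j
    have h1 := congrFun hw j
    simp only [Pi.sub_apply, Pi.smul_apply, smul_eq_mul] at h1
    have b1 := hbd z (Finset.mem_filter.1 hz).1 j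
    have b2 := hbd z' (Finset.mem_filter.1 hz').1 j
    have h3 : |z j - z' j| < p := by
      have h4 : |z j - z' j| ≤ |z j| + |z' j| := abs_sub _ _
      have h5 : ((8 * T0 * R : ℕ) : ℤ) < p := by exact_mod_cast h8
      push_cast at h5
      have h6 : (0 : ℤ) ≤ T0 * R := by positivity
      nlinarith
    have h7 : z j - z' j = 0 := by
      refine Int.eq_zero_of_abs_lt_dvd ⟨w j, h1⟩ h3
    omega
  have hinj : Set.InjOn (fun z => V z - V z0) (S0 : Set (Fin r → ℤ)) := by
    intro z hz z' hz' he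
    have hVV : V (z - z') = 0 := by
      rw [map_sub, sub_eq_zero]
      exact sub_left_injective he
    have h1 := hdiffJ z hz z' hz'
    have h2 : red p (z - z') ∈ K :=
      mem_KK.2 ⟨(Submodule.mem_inf.1 h1).1, z - z', rfl, 0, L.zero_mem, by simpa using hVV⟩
    have h3 : red p (z - z') = 0 := by
      refine hJK _ h2 fun j hj => ?_
      have h4 := (Submodule.mem_inf.1 h1).2
      simp only [Submodule.mem_iInf, LinearMap.mem_ker, LinearMap.proj_apply] at h4
      exact h4 j hj
    exact hredz z hz z' hz' h3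
  have hBcard : B.card = S0.card := Finset.card_image_of_injOn hinj
  refine ⟨B, ?_, ?_, ?_⟩
  · intro x hx
    obtain ⟨z, hz, rfl⟩ := Finset.mem_image.1 hx
    exact ⟨L.sub_mem (hV _) (hV _), hnormd z hz z0 hz0⟩
  · by_contra hcon
    push Not at hcon
    rcases Nat.eq_zero_or_pos m with hm0 | hm0
    · -- m = 0
      have hbot : HJ = ⊥ := by
        apply Submodule.finrank_eq_zero.1
        rw [hJm, hm0]
      have hB0 : ∀ x ∈ B, x = 0 := by
        intro x hx
        obtain ⟨z, hz, rfl⟩ := Finset.mem_image.1 hx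
        have h1 := hdiffJ z hz z0 hz0
        rw [hbot, Submodule.mem_bot] at h1
        rw [hredz z hz z0 hz0 h1, sub_self]
      have hspan : Submodule.span ℝ (B : Set (EE n)) = ⊥ :=
        Submodule.span_eq_bot.2 fun x hx => hB0 x hx
      rw [hspan, finrank_bot] at hcon
      omega
    · set m' := Module.finrank ℝ (Submodule.span ℝ (B : Set (EE n))) with hm'
      obtain ⟨b', hb'sub, hb'li, hb'span⟩ : ∃ b' : Set (EE n), b' ⊆ (B : Set (EE n)) ∧
          LinearIndependent ℝ ((↑) : b' → EE n) ∧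
          Submodule.span ℝ b' = Submodule.span ℝ (B : Set (EE n)) := by
        obtain ⟨b', h1, h2, h3⟩ := exists_linearIndependent ℝ (B : Set (EE n))
        exact ⟨b', h1, h3, h2⟩
      have hb'fin : b'.Finite := B.finite_toSet.subset hb'sub
      have hb'fin' : Finite b' := hb'fin
      have hb'card : Nat.card b' = m' := by
        have : Fintype b' := Fintype.ofFinite b'
        rw [hm', ← hb'span, Nat.card_eq_fintype_card]
        exact (finrank_span_set_eq_card hb'li).symm ▸ by
          rw [Set.toFinset_card]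
      have hle : n / 2 ≤ Nat.card b' := by rw [hb'card]; omega
      have : Fintype b' := Fintype.ofFinite b'
      obtain ⟨e⟩ : Nonempty (Fin (n / 2) ↪ b') := by
        apply Function.Embedding.nonempty_of_card_le
        rw [Fintype.card_fin, ← Nat.card_eq_fintype_card]
        exact hle
      let x : Fin (n / 2) → EE n := fun i => (e i : EE n)
      have hxB : ∀ i, x i ∈ B := fun i => hb'sub (e i).2
      have hxli : LinearIndependent ℝ x := hb'li.comp e e.injective
      have hch : ∀ i, ∃ z ∈ S0, V z - V z0 = x i := fun i => by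
        obtain ⟨z, hz, h⟩ := Finset.mem_image.1 (hxB i)
        exact ⟨z, hz, h⟩
      choose zz hzz hzzx using hch
      have := index_arg (m := m) hV hidx hp6 HJ hJm x (fun i => zz i - z0)
        (fun i => by rw [map_sub, hzzx]) (fun i => hdiffJ _ (hzz i) _ hz0) hxli
        (fun i => by rw [← hzzx]; exact hnormd _ (hzz i) _ hz0) (by omega) (by omega)
      omega
  · rw [hMcard, hBcard, ← htcard]
    exact hMS

end Pool.Agent.N112.LR
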